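import Pool.Agent.W973.IP.Defs

/-! # IP-COER: coercivity in the second block (helper382) -/

set_option autoImplicit false

namespace Pool.Agent.W382.IP

open Pool.Agent.W973.IP

theorem coer (h : S_QB) : S_COER := by
  intro n P a hP e₀ K he₀
  obtain ⟨C, hC, hq⟩ := h n a
  refine ⟨C + C * (n * K) + (K + K * (n * K ^ 6)) / e₀ + 1, fun c e u w hc hcK he hu hG => ?_⟩
  have hK : 0 ≤ K := (norm_nonneg u).trans hu
  have hul : ∀ l, |u l| ≤ K := fun l => by
    have := norm_le_pi_norm u l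
    rw [Real.norm_eq_abs] at this
    exact this.trans hu
  have hX1 : 1 ≤ X w := by
    unfold X
    have : (0 : ℝ) ≤ ∑ j, w j ^ 2 := Finset.sum_nonneg fun j _ => sq_nonneg _
    linarith
  have hs1 : ∑ l, u l ^ 6 ≤ n * K ^ 6 := by
    have h1 : ∑ l, u l ^ 6 ≤ ∑ _l : Fin n, K ^ 6 := by
      refine Finset.sum_le_sum fun l _ => ?_
      rw [← Even.pow_abs (by decide : Even 6) (u l)]
      exact pow_le_pow_left₀ (abs_nonneg _) (hul l) 6
    rw [Finset.sum_const, Finset.card_univ, Fintype.card_fin, nsmul_eq_mul] at h1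
    exact h1
  have hs2 : ∑ l, |u l| ≤ n * K := by
    have h1 : ∑ l, |u l| ≤ ∑ _l : Fin n, K := Finset.sum_le_sum fun l _ => hul l
    rw [Finset.sum_const, Finset.card_univ, Fintype.card_fin, nsmul_eq_mul] at h1
    exact h1
  have hs3 : (0 : ℝ) ≤ ∑ l, u l ^ 6 := Finset.sum_nonneg fun l _ => by positivity
  have hM : 0 ≤ K + K * (n * K ^ 6) := by positivity
  -- the perturbation is bounded
  have h1 : e * qa a u w ≤ K + K * (n * K ^ 6) := by
    unfold G at hG
    have h2 : 0 ≤ hv P u w * X w ^ NN n := mul_nonneg (hP u w) (by positivity)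
    have h3 : c * ∑ l, u l ^ 6 ≤ K * (n * K ^ 6) :=
      mul_le_mul hcK hs1 hs3 hK
    linarith
  have h2 := (abs_le.1 (hq u w)).1
  have h3 : C * (X w ^ (n + 1) + ∑ l, |u l|) ≤ C * (X w ^ (n + 1) + n * K) :=
    mul_le_mul_of_nonneg_left (by linarith) hC
  have hXle : X w ≤ C + C * (n * K) + (K + K * (n * K ^ 6)) / e₀ + 1 := by
    by_contra hcon
    push Not at hcon
    have hdiv : 0 ≤ (K + K * (n * K ^ 6)) / e₀ := div_nonneg hM he₀.le
    have hCn : 0 ≤ C * (n * K) := by positivity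
    have h4 : X w - C ≤ X w ^ (n + 1) * (X w - C) := by
      have h5 : (1 : ℝ) ≤ X w ^ (n + 1) := one_le_pow₀ hX1
      have h6 : 0 ≤ X w - C := by linarith
      nlinarith
    have h5 : X w ^ (n + 1) * (X w - C) = X w ^ (n + 2) - C * X w ^ (n + 1) := by ring
    have h6 : (K + K * (n * K ^ 6)) / e₀ + 1 ≤ qa a u w := by
      rw [h5] at h4
      linarith
    have h7 : e₀ * ((K + K * (n * K ^ 6)) / e₀ + 1) ≤ e * qa a u w :=
      mul_le_mul he h6 (by linarith) (he₀.le.trans he)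
    have h8 : e₀ * ((K + K * (n * K ^ 6)) / e₀ + 1) = K + K * (n * K ^ 6) + e₀ := by
      field_simp
    linarith
  have hB : (1 : ℝ) ≤ C + C * (n * K) + (K + K * (n * K ^ 6)) / e₀ + 1 := hX1.trans hXle
  rw [pi_norm_le_iff_of_nonneg (by linarith)]
  intro j
  rw [Real.norm_eq_abs]
  have h4 : w j ^ 2 ≤ X w := by
    unfold X
    have h5 : w j ^ 2 ≤ ∑ j, w j ^ 2 :=
      Finset.single_le_sum (fun j _ => sq_nonneg (w j)) (Finset.mem_univ j)
    linarith
  by_contra hcon
  push Not at hcon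
  have h5 : |w j| ^ 2 = w j ^ 2 := sq_abs _
  nlinarith

end Pool.Agent.W382.IP
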